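import Pool.Agent.Lib.helper15.AltSum

set_option autoImplicit false

open Real Equiv Pool.Agent.Lib.helper15.AltSum

namespace Pool.Agent.Results.MP_89dd65_gt.Counter

/-- `a, b, c` are distinct points in counterclockwise cyclic order. -/
def CCW (a b c : Circle) : Prop :=
  ∃ x y z : ℝ, x < y ∧ y < z ∧ z < x + 2 * π ∧
    a = Circle.exp x ∧ b = Circle.exp y ∧ c = Circle.exp z

open Classical in
/-- The orientation cocycle. -/
noncomputable def Or (a b c : Circle) : ℝ := if CCW a b c then 1 else if CCW a c b then -1 else 0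

/-- `Θ_n`; `θ j i` is the coordinate number `i + 1` of the point `θ_j`. -/
noncomputable def Θ (n : ℕ) (θ : Fin (2 * n + 1) → Fin n → Circle) : ℝ :=
  π ^ n / (2 * n + 1).factorial * ∑ σ : Perm (Fin (2 * n + 1)), ((Perm.sign σ : ℤ) : ℝ) *
    ∏ i : Fin n, Or (θ (σ ⟨2 * i, by omega⟩) i) (θ (σ ⟨2 * i + 1, by omega⟩) i)
      (θ (σ ⟨2 * i + 2, by omega⟩) i)

/-- The configuration `θ*`. -/
noncomputable def star (n : ℕ) (j : Fin (2 * n + 1)) (i : Fin n) : Circle :=
  Circle.exp (2 * π / (2 * n + 1)) ^ ((i + 1) * j : ℕ)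

noncomputable def D (a b c : Circle) : ℝ := ((starRingEnd ℂ) (b - a : ℂ) * (c - a : ℂ)).im

lemma D_pos {a b c : Circle} (h : CCW a b c) : 0 < D a b c := by
  obtain ⟨x, y, z, h1, h2, h3, rfl, rfl, rfl⟩ := h
  obtain ⟨u, rfl⟩ : ∃ u, y = x + 2 * u := ⟨(y - x) / 2, by ring⟩
  obtain ⟨v, rfl⟩ : ∃ v, z = x + 2 * u + 2 * v := ⟨(z - x - 2 * u) / 2, by ring⟩
  have e : D (Circle.exp x) (Circle.exp (x + 2 * u)) (Circle.exp (x + 2 * u + 2 * v)) =
      4 * (sin u * sin v * sin (u + v)) := by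
    simp only [D, Circle.coe_exp, Complex.mul_im, Complex.conj_re, Complex.conj_im, Complex.sub_re,
      Complex.sub_im, Complex.exp_ofReal_mul_I_re, Complex.exp_ofReal_mul_I_im, sin_add, cos_add,
      sin_two_mul, cos_two_mul]
    have hx := sin_sq_add_cos_sq x
    have hu := sin_sq_add_cos_sq u
    have hv := sin_sq_add_cos_sq v
    grobner
  rw [e]
  have := sin_pos_of_pos_of_lt_pi (x := u) (by linarith) (by linarith)
  have := sin_pos_of_pos_of_lt_pi (x := v) (by linarith) (by linarith)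
  have := sin_pos_of_pos_of_lt_pi (x := u + v) (by linarith) (by linarith)
  positivity

lemma D_swap (a b c : Circle) : D a c b = -D a b c := by
  simp [D]; ring

lemma rot {a b c : Circle} (h : CCW a b c) : CCW b c a := by
  obtain ⟨x, y, z, h1, h2, h3, rfl, rfl, rfl⟩ := h
  exact ⟨y, z, x + 2 * π, h2, h3, by linarith, rfl, rfl, (Circle.periodic_exp x).symm⟩

lemma Or_pos {a b c : Circle} (h : CCW a b c) : Or a b c = 1 := if_pos h

lemma Or_neg {a b c : Circle} (h : CCW a c b) : Or a b c = -1 := by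
  have := D_pos h
  rw [Or, if_neg fun h' => by linarith [D_pos h', D_swap a b c], if_pos h]

lemma Or_zero {a b c : Circle} (h : a = b ∨ b = c ∨ a = c) : Or a b c = 0 := by
  have : D a b c = 0 := by rcases h with rfl | rfl | rfl <;> simp [D]; ring
  rw [Or, if_neg fun h' => by linarith [D_pos h'],
    if_neg fun h' => by linarith [D_pos h', D_swap a b c]]

noncomputable def E (a : ℕ) : Circle := Circle.exp (2 * π / 9 * a)

lemma ccwE {a b c : ℕ} (h1 : a < b) (h2 : b < c) (h4 : c < a + 9) :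
    CCW (E a) (E b) (E c) := by
  have := pi_pos
  have h1' : (a : ℝ) < b := by exact_mod_cast h1
  have h2' : (b : ℝ) < c := by exact_mod_cast h2
  have h4' : (c : ℝ) < a + 9 := by exact_mod_cast h4
  exact ⟨_, _, _, by nlinarith, by nlinarith, by nlinarith, rfl, rfl, rfl⟩

lemma OrE {a b c : ℕ} (ha : a < 9) (hb : b < 9) (hc : c < 9) :
    Or (E a) (E b) (E c) = orN a b c := by
  simp only [orN, Bool.cond_eq_ite, Nat.blt_eq, Bool.or_eq_true, Nat.beq_eq]
  split_ifs with h1 h2 h3 h4 h5 h6 h7 h8 <;> push_cast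
  · exact Or_pos (ccwE h1 h2 (by omega))
  · exact Or_pos (rot (ccwE h3 h1 (by omega)))
  · exact Or_zero (Or.inr (h4.imp (congrArg E) (congrArg E)))
  · exact Or_neg (ccwE (by omega) (by omega) (by omega))
  · exact Or_zero (Or.inl (congrArg E h5))
  · exact Or_neg (rot (rot (ccwE h6 (by omega) (by omega))))
  · exact Or_neg (rot (ccwE (by omega) h7 (by omega)))
  · exact Or_zero (Or.inr (h8.imp (congrArg E) (congrArg E)))
  · exact Or_pos (rot (rot (ccwE (by omega) (by omega) (by omega))))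

lemma Θ_eq (p : Fin 4 → ℕ → ℕ) (hp : ∀ i, ∀ j : Fin 9, p i j < 9) :
    Θ 4 (fun j i => E (p i j)) = π ^ 4 / (9 : ℕ).factorial *
      pick [0, 1, 2, 3, 4, 5, 6, 7, 8] (go [p 0, p 1, p 2, p 3]) := by
  rw [← total _ _ rfl, alt, Θ]
  push_cast
  congr 1
  refine Finset.sum_congr rfl fun σ _ => ?_
  have hl : ∀ j : Fin 9, ([0, 1, 2, 3, 4, 5, 6, 7, 8] : List ℕ).getD j 0 = (j : ℕ) := by decide
  simp only [OrE (hp _ _) (hp _ _) (hp _ _), Fin.prod_univ_four]
  erw [funext fun i => hl (σ i)]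
  simp [prodF, List.ofFn_succ, mul_assoc]

lemma star_eq : star 4 = fun (j : Fin 9) (i : Fin 4) => E (((i : ℕ) + 1) * j % 9) := by
  funext j i
  rw [star, E, ← Circle.exp_nsmul, Circle.exp_eq_exp]
  refine ⟨((i + 1) * j / 9 : ℕ), ?_⟩
  have : ((((i + 1) * j : ℕ)) : ℝ) = ((i + 1) * j % 9 : ℕ) + 9 * ((i + 1) * j / 9 : ℕ) := by
    exact_mod_cast (Nat.mod_add_div _ 9).symm
  rw [nsmul_eq_mul, this, Int.cast_natCast]
  push_cast
  ring

theorem result : Θ 4 (star 4) = π ^ 4 / (9 : ℕ).factorial * 12960 ∧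
    (∃ θ, Θ 4 θ = π ^ 4 / (9 : ℕ).factorial * 24192) ∧ ∃ θ, |Θ 4 (star 4)| < |Θ 4 θ| := by
  have h1 : Θ 4 (star 4) = π ^ 4 / (9 : ℕ).factorial * 12960 := by
    rw [star_eq, Θ_eq (fun i j => (i + 1) * j % 9) fun _ _ => Nat.mod_lt _ (by norm_num)]
    erw [v1]; norm_num
  have h2 := Θ_eq ![fun j => 824573601 / 10 ^ j % 10, fun j => 83156742 / 10 ^ j % 10,
    fun j => 614087325 / 10 ^ j % 10, fun j => 423716850 / 10 ^ j % 10] (by decide)
  erw [v2] at h2
  have : 0 < π ^ 4 / (9 : ℕ).factorial := by have := pi_pos; positivity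
  push_cast at h2
  refine ⟨h1, ⟨_, h2⟩, ⟨_, lt_of_lt_of_eq ?_ (congrArg abs h2).symm⟩⟩
  rw [h1, abs_of_pos (by positivity), abs_of_pos (by positivity)]
  linarith

end Pool.Agent.Results.MP_89dd65_gt.Counter
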